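import Mathlib

/-!
# Determinant of a block anti-triangular matrix
-/

namespace H91.VG

open Finset

/-- the sign of the order reversing permutation of `Fin r` -/
theorem sign_revPerm (r : ℕ) :
    (Equiv.Perm.sign (Fin.revPerm : Equiv.Perm (Fin r))) = (-1) ^ (r * (r - 1) / 2) := by
  rw [Equiv.Perm.sign_eq_prod_prod_Iio]
  have h : ∀ j : Fin r, ∏ i ∈ Iio j,
      (if (Fin.revPerm : Equiv.Perm (Fin r)) i < Fin.revPerm j then (1 : ℤˣ) else -1) =
        (-1) ^ (j : ℕ) := by
    intro j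
    have h1 : ∏ i ∈ Iio j,
        (if (Fin.revPerm : Equiv.Perm (Fin r)) i < Fin.revPerm j then (1 : ℤˣ) else -1) =
        ∏ _i ∈ Iio j, (-1 : ℤˣ) := by
      refine prod_congr rfl fun i hi => ?_
      have hi' : i < j := mem_Iio.1 hi
      rw [if_neg]
      simp only [Fin.revPerm_apply, Fin.rev_lt_rev, not_lt]
      exact hi'.le
    rw [h1, prod_const, Fin.card_Iio]
  rw [prod_congr rfl fun j _ => h j, prod_pow_eq_pow_sum, Fin.sum_univ_eq_sum_range (fun i => i),
    sum_range_id]

/-- (P2) Determinant of a block anti-triangular matrix. -/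
theorem antiTri_det {ι : Type*} [Fintype ι] [DecidableEq ι] (r : ℕ)
    (G : Matrix (Fin r × ι) (Fin r × ι) ℂ) (g : Matrix ι ι ℂ)
    (h0 : ∀ (i k : Fin r) (a b : ι), (i : ℕ) + k + 1 < r → G (i, a) (k, b) = 0)
    (h1 : ∀ (i k : Fin r) (a b : ι), (i : ℕ) + k + 1 = r → G (i, a) (k, b) = g a b) :
    G.det = ((-1 : ℂ) ^ (r * (r - 1) / 2)) ^ Fintype.card ι * g.det ^ r := by
  classical
  set ρ : Equiv.Perm (Fin r × ι) := Equiv.prodCongrLeft fun _ : ι => (Fin.revPerm : Equiv.Perm (Fin r))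
    with hρ
  have hρa : ∀ (i : Fin r) (a : ι), ρ (i, a) = (Fin.rev i, a) := fun i a => rfl
  have hsign : (Equiv.Perm.sign ρ) = ((-1) ^ (r * (r - 1) / 2)) ^ Fintype.card ι := by
    rw [hρ, Equiv.Perm.sign_prodCongrLeft, prod_const, sign_revPerm, card_univ]
  have hdet : (G.submatrix ρ id).det = (Equiv.Perm.sign ρ : ℤˣ) * G.det := Matrix.det_permute ρ G
  have htri : (G.submatrix ρ id).BlockTriangular Prod.fst := by
    rintro ⟨i, a⟩ ⟨k, b⟩ hk
    rw [Matrix.submatrix_apply, hρa]
    apply h0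
    have hk' : (k : ℕ) < i := hk
    rw [Fin.val_rev]
    have := i.isLt
    omega
  have hblock : ∀ k : Fin r, ((G.submatrix ρ id).toSquareBlock Prod.fst k).det = g.det := by
    intro k
    let e : {x : Fin r × ι // x.1 = k} ≃ ι :=
      { toFun := fun x => x.1.2
        invFun := fun a => ⟨(k, a), rfl⟩
        left_inv := by
          rintro ⟨⟨i, a⟩, h⟩
          simp only at h
          subst h
          rfl
        right_inv := fun a => rfl }
    have : (G.submatrix ρ id).toSquareBlock Prod.fst k = g.submatrix e e := by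
      ext ⟨⟨i, a⟩, hi⟩ ⟨⟨j, b⟩, hj⟩
      simp only at hi hj
      subst hi
      have hj' : j = i := hj
      subst hj'
      change G (ρ (j, a)) (j, b) = g a b
      rw [hρa]
      apply h1
      rw [Fin.val_rev]
      have := j.isLt
      omega
    rw [this, Matrix.det_submatrix_equiv_self]
  have hprod : (G.submatrix ρ id).det = g.det ^ r := by
    rw [htri.det_fintype, prod_congr rfl fun k _ => hblock k, prod_const, card_univ,
      Fintype.card_fin]
  rw [hprod, hsign] at hdet
  have hsq : (((-1 : ℂ) ^ (r * (r - 1) / 2)) ^ Fintype.card ι) *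
      (((-1 : ℂ) ^ (r * (r - 1) / 2)) ^ Fintype.card ι) = 1 := by
    rw [← mul_pow, ← mul_pow]
    simp
  push_cast at hdet
  calc G.det = (((-1 : ℂ) ^ (r * (r - 1) / 2)) ^ Fintype.card ι) *
      (((-1 : ℂ) ^ (r * (r - 1) / 2)) ^ Fintype.card ι) * G.det := by rw [hsq, one_mul]
    _ = ((-1 : ℂ) ^ (r * (r - 1) / 2)) ^ Fintype.card ι * g.det ^ r := by
      rw [mul_assoc, ← hdet]

end H91.VG
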